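import Pool.Agent.Helper28.HN.Cfg
import Pool.Agent.Helper47.HN.MapL
import Pool.Agent.Helper64.XI.Alg

/-!
# The derivative of the form on the line (DIFF)
-/

set_option autoImplicit false

namespace Pool.Agent.Helper82.HN

open Finset Pool.Agent.Helper28.HN

variable {m : ℕ} {S : Type*} [CommRing S]

/-- The value at `0`. -/
noncomputable def ev (P : Polynomial S) : S := P.eval 0

/-- The derivative at `0`. -/
noncomputable def dv (P : Polynomial S) : S := P.derivative.eval 0

theorem dv_mul (P Q : Polynomial S) : dv (P * Q) = dv P * ev Q + ev P * dv Q := by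
  simp [dv, ev, Polynomial.derivative_mul]

theorem dv_C_mul (a : S) (P : Polynomial S) : dv (Polynomial.C a * P) = a * dv P := by
  simp [dv]

theorem dv_sum {ι : Type*} (s : Finset ι) (P : ι → Polynomial S) :
    dv (∑ i ∈ s, P i) = ∑ i ∈ s, dv (P i) := by
  simp [dv, Polynomial.eval_finsetSum]

theorem ev_mul (P Q : Polynomial S) : ev (P * Q) = ev P * ev Q := by simp [ev]

theorem ev_C (a : S) : ev (Polynomial.C a) = a := by simp [ev]

variable (c : Ix m → S)

theorem dv_lf (r : Fin m) (x y : I m → Polynomial S) :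
    dv (lf (fun e => Polynomial.C (c e)) r x y) =
      lf c r (fun i => dv (x i)) (fun i => ev (y i)) +
      lf c r (fun i => ev (x i)) (fun i => dv (y i)) := by
  simp only [lf, dv_sum, ← sum_add_distrib]
  refine sum_congr rfl fun i _ => sum_congr rfl fun j _ => ?_
  rw [mul_assoc, dv_C_mul, dv_mul]
  ring

theorem dv_qf (x x' y y' : I m → Polynomial S) :
    dv (qf (fun e => Polynomial.C (c e)) x x' y y') =
      qf c (fun i => dv (x i)) (fun i => ev (x' i)) (fun i => ev (y i)) (fun i => ev (y' i)) +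
      qf c (fun i => ev (x i)) (fun i => dv (x' i)) (fun i => ev (y i)) (fun i => ev (y' i)) +
      qf c (fun i => ev (x i)) (fun i => ev (x' i)) (fun i => dv (y i)) (fun i => ev (y' i)) +
      qf c (fun i => ev (x i)) (fun i => ev (x' i)) (fun i => ev (y i)) (fun i => dv (y' i)) := by
  simp only [qf, dv_sum, ← sum_add_distrib]
  refine sum_congr rfl fun i _ => sum_congr rfl fun j _ => sum_congr rfl fun k _ =>
    sum_congr rfl fun l _ => ?_
  have e : pq (fun e => Polynomial.C (c e)) i j k l = Polynomial.C (pq c i j k l) := by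
    simp [pq]
  rw [e, mul_assoc, mul_assoc, mul_assoc, dv_C_mul, dv_mul, dv_mul, dv_mul, ev_mul, ev_mul]
  ring

/-- The vector whose first two entries are `0`. -/
noncomputable def ad (x : I m → S) (g : Fin m → S) : I m → S :=
  Fin.cons 0 (Fin.cons 0 (- ((Mx c x).adjugate.mulVec g)))

/-- `w` with `L_r (x, w) = - g r`. -/
theorem det_mul_gen (x w : I m → S) (g : Fin m → S) (h : ∀ r, lf c r x w = - g r) (i : I m) :
    (Mx c x).det * w i = w 0 * Y0 c x i + w 1 * Y1 c x i + ad c x g i := by
  refine Fin.cases ?_ (fun j => Fin.cases ?_ (fun b => ?_) j) i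
  · simp only [Y0, Y1, ad, Fin.cons_zero]
    ring
  · simp only [Y0, Y1, ad, Fin.cons_succ, Fin.cons_zero]
    have e1 : (Fin.succ 0 : Fin (m + 2)) = 1 := rfl
    rw [e1]
    ring
  · simp only [Y0, Y1, ad, Fin.cons_succ, Pi.neg_apply]
    have h1 : (Mx c x).mulVec (fun b : Fin m => w b.succ.succ) =
        (- w 0) • (fun r => lf c r x (Pi.single 0 1)) +
          (- w 1) • (fun r => lf c r x (Pi.single 1 1)) + (-1 : S) • g := by
      funext r
      have h2 := Helper64.XI.lf_split c r x w
      rw [h r] at h2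
      simp only [Pi.add_apply, Pi.smul_apply, smul_eq_mul]
      linear_combination -h2
    have h4 : (Mx c x).det * w b.succ.succ =
        (Mx c x).adjugate.mulVec ((Mx c x).mulVec (fun b : Fin m => w b.succ.succ)) b := by
      rw [Helper64.XI.adj_mulVec]
      rfl
    rw [h4, h1, Matrix.mulVec_add, Matrix.mulVec_add, Matrix.mulVec_smul, Matrix.mulVec_smul,
      Matrix.mulVec_smul]
    simp only [Pi.add_apply, Pi.smul_apply, smul_eq_mul]
    ring

section main

variable (x ξ : I m → S)

/-- The line through `x` in the direction `ξ`. -/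
noncomputable def xT (i : I m) : Polynomial S :=
  Polynomial.C (x i) + Polynomial.X * Polynomial.C (ξ i)

theorem ev_xT (i : I m) : ev (xT x ξ i) = x i := by simp [ev, xT]

theorem dv_xT (i : I m) : dv (xT x ξ i) = ξ i := by
  simp [dv, xT, Polynomial.derivative_mul]

/-- A family of vectors `y` on the lines with `y 0 = a D`, `y 1 = b D`. -/
theorem dv_form (a b : S) (y : I m → Polynomial S) (y0 : I m → S)
    (hl : ∀ r, lf (fun e => Polynomial.C (c e)) r (xT x ξ) y = 0)
    (h0 : y 0 = Polynomial.C a * (Mx (fun e => Polynomial.C (c e)) (xT x ξ)).det)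
    (h1 : y 1 = Polynomial.C b * (Mx (fun e => Polynomial.C (c e)) (xT x ξ)).det)
    (hy : ∀ i, ev (y i) = y0 i) (hy0 : ∀ i, y0 i = a * Y0 c x i + b * Y1 c x i) :
    (Mx c x).det * dv (qf (fun e => Polynomial.C (c e)) (xT x ξ) (xT x ξ) y y) =
      2 * ((Mx c x).det * qf c x ξ y0 y0 + qf c x x y0 (ad c x fun r => lf c r ξ y0)) +
      2 * dv (Mx (fun e => Polynomial.C (c e)) (xT x ξ)).det * qf c x x y0 y0 := by
  have e1 : (fun i => ev (y i)) = y0 := funext hy
  have e2 : (fun i => ev (xT x ξ i)) = x := funext (ev_xT x ξ)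
  have e3 : (fun i => dv (xT x ξ i)) = ξ := funext (dv_xT x ξ)
  set w : I m → S := fun i => dv (y i) with hw
  have e4 : ∀ r, lf c r x w = - lf c r ξ y0 := by
    intro r
    have h2 := dv_lf c r (xT x ξ) y
    rw [hl r, e1, e2, e3] at h2
    have h3 : dv (0 : Polynomial S) = 0 := by simp [dv]
    rw [h3] at h2
    linear_combination -h2
  have e5 : ∀ i, (Mx c x).det * w i =
      dv (Mx (fun e => Polynomial.C (c e)) (xT x ξ)).det * y0 i +
        ad c x (fun r => lf c r ξ y0) i := by
    intro i
    rw [det_mul_gen c x w _ e4 i]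
    have h2 : w 0 = a * dv (Mx (fun e => Polynomial.C (c e)) (xT x ξ)).det := by
      rw [hw]
      simp only [h0, dv_C_mul]
    have h3 : w 1 = b * dv (Mx (fun e => Polynomial.C (c e)) (xT x ξ)).det := by
      rw [hw]
      simp only [h1, dv_C_mul]
    rw [h2, h3, hy0]
    ring
  rw [dv_qf, e1, e2, e3, Helper47.HN.qf_symm_left c ξ x, Helper47.HN.qf_symm_right c x x w y0]
  have e6 : (Mx c x).det * qf c x x y0 w =
      dv (Mx (fun e => Polynomial.C (c e)) (xT x ξ)).det * qf c x x y0 y0 +
        qf c x x y0 (ad c x fun r => lf c r ξ y0) := by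
    rw [← Helper47.HN.qf_smul4, ← Helper47.HN.qf_smul4, ← Helper47.HN.qf_add4]
    exact congrArg (qf c x x y0) (funext e5)
  linear_combination 2 * e6

/-- `D ∂_ξ Fh = qh + 2 (∂_ξ D) Fh`. -/
theorem diff_F : ∃ d : S, ∀ z, (Mx c x).det * ((Fh (fun e => Polynomial.C (c e))
      (fun i => Polynomial.C (x i) + Polynomial.X * Polynomial.C (ξ i))
        (Polynomial.C z)).derivative.eval 0) = qh c x ξ z + 2 * d * Fh c x z ∧
    (Mx c x).det * ((Ah (fun e => Polynomial.C (c e))
      (fun i => Polynomial.C (x i) + Polynomial.X * Polynomial.C (ξ i))).derivative.eval 0) =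
      qa c x ξ + 2 * d * Ah c x := by
  have ec : (fun e => (Polynomial.evalRingHom (0 : S)) (Polynomial.C (c e))) = c := by
    funext e
    simp
  have ex : (fun i => (Polynomial.evalRingHom (0 : S)) (xT x ξ i)) = x := funext (ev_xT x ξ)
  refine ⟨dv (Mx (fun e => Polynomial.C (c e)) (xT x ξ)).det, fun z => ⟨?_, ?_⟩⟩
  · refine dv_form c x ξ 1 z (yh (fun e => Polynomial.C (c e)) (xT x ξ) (Polynomial.C z))
      (yh c x z) (fun r => Helper64.XI.lf_yh _ r _ _) ?_ ?_ (fun i => ?_) (fun i => ?_)
    · rw [Helper64.XI.yh_zero, Polynomial.C_1, one_mul]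
    · rw [Helper64.XI.yh_one]
    · have h := Helper47.HN.map_yh (Polynomial.evalRingHom (0 : S)) (fun e => Polynomial.C (c e))
        (xT x ξ) (Polynomial.C z) i
      rw [ec, ex] at h
      refine h.trans ?_
      simp
    · simp [yh]
  · refine dv_form c x ξ 0 1 (Y1 (fun e => Polynomial.C (c e)) (xT x ξ))
      (Y1 c x) (fun r => Helper64.XI.lf_Y1 _ r _) ?_ ?_ (fun i => ?_) (fun i => ?_)
    · rw [Helper64.XI.Y1_zero, Polynomial.C_0, zero_mul]
    · rw [Helper64.XI.Y1_one, Polynomial.C_1, one_mul]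
    · have h := Helper47.HN.map_Y1 (Polynomial.evalRingHom (0 : S)) (fun e => Polynomial.C (c e))
        (xT x ξ) i
      rw [ec, ex] at h
      exact h
    · ring

end main

end Pool.Agent.Helper82.HN
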